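import Pool.Agent.H39.OD.Targets

/-!
# Board odp_modules, row KWY (helper12)
-/

set_option autoImplicit false

namespace Pool.Agent.H12.OD

open Pool.Agent.H57.CP Pool.Agent.H39.TO Pool.Agent.H39.OD

/-- the two bijections agree on `V` and preserve `V`, also their inverses -/
def Agr (V : Set H3) (g h : Equiv.Perm H3) : Prop :=
  ∀ x ∈ V, g x = h x ∧ g x ∈ V ∧ g⁻¹ x = h⁻¹ x ∧ g⁻¹ x ∈ V

theorem Agr.symm {V : Set H3} {g h : Equiv.Perm H3} (H : Agr V g h) : Agr V h g := by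
  intro x hx
  obtain ⟨h1, h2, h3, h4⟩ := H x hx
  exact ⟨h1.symm, h1 ▸ h2, h3.symm, h3 ▸ h4⟩

theorem Agr_closure {V : Set H3} {S T : Set (Equiv.Perm H3)} (H : ∀ s ∈ S, ∃ t ∈ T, Agr V s t) :
    ∀ g ∈ Subgroup.closure S, ∃ g2 ∈ Subgroup.closure T, Agr V g g2 := by
  intro g hg
  induction hg using Subgroup.closure_induction with
  | mem s hs =>
    obtain ⟨t, ht, h⟩ := H s hs
    exact ⟨t, Subgroup.subset_closure ht, h⟩
  | one =>
    refine ⟨1, Subgroup.one_mem _, ?_⟩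
    intro x hx
    exact ⟨rfl, hx, rfl, by rw [inv_one]; exact hx⟩
  | mul x y _ _ ihx ihy =>
    obtain ⟨x2, hx2, hx⟩ := ihx
    obtain ⟨y2, hy2, hy⟩ := ihy
    refine ⟨x2 * y2, Subgroup.mul_mem _ hx2 hy2, ?_⟩
    intro z hz
    obtain ⟨a1, a2, -, -⟩ := hy z hz
    obtain ⟨b1, b2, -, -⟩ := hx (y z) a2
    obtain ⟨-, -, c3, c4⟩ := hx z hz
    obtain ⟨-, -, d3, d4⟩ := hy (x⁻¹ z) c4
    refine ⟨?_, b2, ?_, ?_⟩
    · show x (y z) = x2 (y2 z)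
      rw [b1, a1]
    · rw [mul_inv_rev, mul_inv_rev]
      show y⁻¹ (x⁻¹ z) = y2⁻¹ (x2⁻¹ z)
      rw [d3, c3]
    · rw [mul_inv_rev]
      exact d4
  | inv x _ ihx =>
    obtain ⟨x2, hx2, hx⟩ := ihx
    refine ⟨x2⁻¹, Subgroup.inv_mem _ hx2, ?_⟩
    intro z hz
    obtain ⟨a1, a2, a3, a4⟩ := hx z hz
    refine ⟨a3, a4, ?_, ?_⟩
    · rw [inv_inv, inv_inv]
      exact a1
    · rw [inv_inv]
      exact a2

theorem Agr.image {V : Set H3} {g h : Equiv.Perm H3} (H : Agr V g h) {e : Set H3} (he : e ⊆ V) :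
    g '' e = h '' e :=
  Set.image_congr fun x hx => (H x (he hx)).1

theorem Agr.image_sub {V : Set H3} {g h : Equiv.Perm H3} (H : Agr V g h) {e : Set H3}
    (he : e ⊆ V) : g '' e ⊆ V := by
  rintro _ ⟨x, hx, rfl⟩
  exact (H x (he hx)).2.1

theorem Agr.image2 {V : Set H3} {g h : Equiv.Perm H3} (H : Agr V g h) {f : Set (Set H3)}
    (hf : ∀ e ∈ f, e ⊆ V) : (Set.image g) '' f = (Set.image h) '' f :=
  Set.image_congr fun e he => H.image (hf e he)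

/-- the reflection and the symmetry agree -/
theorem Agr_rf (hRFX : T_RFX) {K : Geo} {a : Equiv.Perm H3} (ha : Sy K a)
    (haa : ∀ x ∈ K.V, a (a x) = x) {n : V4} (hn : mk n n = -1)
    (h : ∀ x ∈ K.V, refl n x.1 = (a x).1) : Agr K.V a (rf n) := by
  obtain ⟨h1, -, h3, -⟩ := hRFX n hn
  have hinv : (rf n)⁻¹ = rf n := inv_eq_of_mul_eq_one_left h3
  have e1 : ∀ x ∈ K.V, a x = rf n x := by
    intro x hx
    apply Subtype.ext
    rw [h1 x, h x hx]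
  have e2 : ∀ x ∈ K.V, a⁻¹ x = a x := by
    intro x hx
    rw [Equiv.Perm.inv_eq_iff_eq]
    exact (haa x hx).symm
  intro x hx
  have hax : a x ∈ K.V := (ha.v x).2 hx
  refine ⟨e1 x hx, hax, ?_, ?_⟩
  · rw [e2 x hx, hinv]
    exact e1 x hx
  · rw [e2 x hx]
    exact hax

theorem fc_sub {V : Set H3} {a b A B : Equiv.Perm H3} (ha : Agr V a A) (hb : Agr V b B)
    {e : Set H3} (he : e ⊆ V) : (∀ x ∈ fc a b e, x ⊆ V) ∧ fc a b e ⊆ fc A B e := by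
  have H : ∀ s ∈ ({a, b} : Set (Equiv.Perm H3)), ∃ t ∈ ({A, B} : Set (Equiv.Perm H3)),
      Agr V s t := by
    rintro s (rfl | rfl)
    · exact ⟨A, Or.inl rfl, ha⟩
    · exact ⟨B, Or.inr rfl, hb⟩
  constructor
  · rintro x ⟨g, hg, rfl⟩
    obtain ⟨g2, -, h⟩ := Agr_closure H g hg
    exact h.image_sub he
  · rintro x ⟨g, hg, rfl⟩
    obtain ⟨g2, hg2, h⟩ := Agr_closure H g hg
    exact ⟨g2, hg2, h.image he⟩

theorem fc_eq {V : Set H3} {a b A B : Equiv.Perm H3} (ha : Agr V a A) (hb : Agr V b B)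
    {e : Set H3} (he : e ⊆ V) : fc a b e = fc A B e :=
  Set.Subset.antisymm (fc_sub ha hb he).2 (fc_sub ha.symm hb.symm he).2

theorem pf_KWY (hRFX : T_RFX) : T_KWY := by
  intro K v v1 f f' a b c p q n0 n1 n2 hK hD h0 h1 h2 ha hb hc
  have Ha := Agr_rf hRFX hD.sa hD.aa h0 ha
  have Hb := Agr_rf hRFX hD.sb hD.bb h1 hb
  have Hc := Agr_rf hRFX hD.sc hD.cc h2 hc
  have H1 : ∀ s ∈ ({a, b, c} : Set (Equiv.Perm H3)),
      ∃ t ∈ ({rf n0, rf n1, rf n2} : Set (Equiv.Perm H3)), Agr K.V s t := by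
    rintro s (rfl | rfl | rfl)
    · exact ⟨_, Or.inl rfl, Ha⟩
    · exact ⟨_, Or.inr (Or.inl rfl), Hb⟩
    · exact ⟨_, Or.inr (Or.inr rfl), Hc⟩
  have H2 : ∀ s ∈ ({rf n0, rf n1, rf n2} : Set (Equiv.Perm H3)),
      ∃ t ∈ ({a, b, c} : Set (Equiv.Perm H3)), Agr K.V s t := by
    rintro s (rfl | rfl | rfl)
    · exact ⟨_, Or.inl rfl, Ha.symm⟩
    · exact ⟨_, Or.inr (Or.inl rfl), Hb.symm⟩
    · exact ⟨_, Or.inr (Or.inr rfl), Hc.symm⟩
  have hv : v ∈ K.V := by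
    rw [hD.eV]
    exact ⟨1, Subgroup.one_mem _, rfl⟩
  have hv1 : v1 = rf n0 v := by
    rw [← hD.av]
    exact (Ha v hv).1
  have hv1m : v1 ∈ K.V := by
    rw [← hD.av]
    exact (Ha v hv).2.1
  have he : ({v, v1} : Set H3) ⊆ K.V := by
    rintro x (rfl | rfl)
    · exact hv
    · exact hv1m
  have hV : K.V = {x | ∃ g ∈ Subgroup.closure {rf n0, rf n1, rf n2}, x = g v} := by
    conv_lhs => rw [hD.eV]
    ext x
    constructor
    · rintro ⟨g, hg, rfl⟩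
      obtain ⟨g2, hg2, h⟩ := Agr_closure H1 g hg
      exact ⟨g2, hg2, (h v hv).1⟩
    · rintro ⟨g, hg, rfl⟩
      obtain ⟨g2, hg2, h⟩ := Agr_closure H2 g hg
      exact ⟨g2, hg2, (h v hv).1⟩
  have hE : K.E = {e | ∃ g ∈ Subgroup.closure {rf n0, rf n1, rf n2}, e = g '' {v, rf n0 v}} := by
    rw [hD.eE, ← hv1]
    ext x
    constructor
    · rintro ⟨g, hg, rfl⟩
      obtain ⟨g2, hg2, h⟩ := Agr_closure H1 g hg
      exact ⟨g2, hg2, h.image he⟩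
    · rintro ⟨g, hg, rfl⟩
      obtain ⟨g2, hg2, h⟩ := Agr_closure H2 g hg
      exact ⟨g2, hg2, h.image he⟩
  have ef1 : f = fcw (rf n0) (rf n1) {v, rf n0 v} := by
    rw [hD.ef, fc_eq Ha Hb he, hv1]
    rfl
  have ef2 : f' = fcw (rf n0) (rf n2) {v, rf n0 v} := by
    rw [hD.ef', fc_eq Ha Hc he, hv1]
    rfl
  have hf : ∀ e ∈ f, e ⊆ K.V := by
    rw [hD.ef]
    exact (fc_sub Ha Hb he).1
  have hf' : ∀ e ∈ f', e ⊆ K.V := by
    rw [hD.ef']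
    exact (fc_sub Ha Hc he).1
  have hF : K.F = {h | ∃ g ∈ Subgroup.closure {rf n0, rf n1, rf n2},
      h = (Set.image g) '' fcw (rf n0) (rf n1) {v, rf n0 v} ∨
      h = (Set.image g) '' fcw (rf n0) (rf n2) {v, rf n0 v}} := by
    rw [hD.eF, ← ef1, ← ef2]
    ext x
    constructor
    · rintro ⟨g, hg, h⟩
      obtain ⟨g2, hg2, h3⟩ := Agr_closure H1 g hg
      rw [h3.image2 hf, h3.image2 hf'] at h
      exact ⟨g2, hg2, h⟩
    · rintro ⟨g, hg, h⟩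
      obtain ⟨g2, hg2, h3⟩ := Agr_closure H2 g hg
      rw [h3.image2 hf, h3.image2 hf'] at h
      exact ⟨g2, hg2, h⟩
  obtain ⟨V, E, F⟩ := K
  show (⟨V, E, F⟩ : Geo) = ⟨_, _, _⟩
  exact (Geo.mk.injEq _ _ _ _ _ _).mpr ⟨hV, hE, hF⟩

end Pool.Agent.H12.OD
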